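import Pool.Agent.H59.LIN.Targets

/-!
# `MP_559314_gt`: row BIN
-/

set_option autoImplicit false

open Finset

namespace Pool.Agent.H94.LIN

/-- the recursion of the partial sums -/
theorem bin_rec (c : ℤ) (k : ℕ) :
    ∑ j ∈ range (k + 1), (2 : ℤ) ^ j * Ring.multichoose (c + 1) j +
      ∑ j ∈ range (k + 1), (2 : ℤ) ^ j * Ring.multichoose c j =
      2 ^ (k + 1) * Ring.multichoose (c + 1) k := by
  induction k with
  | zero =>
    simp only [zero_add, Finset.sum_range_one, pow_zero, one_mul,
      Ring.multichoose_zero_right, pow_one]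
    norm_num
  | succ k ih =>
    rw [Finset.sum_range_succ, Finset.sum_range_succ (fun j => (2 : ℤ) ^ j * Ring.multichoose c j)]
    have h := Ring.multichoose_succ_succ c k
    linear_combination ih - 2 ^ (k + 1) * h

/-- BIN -/
theorem pf_BIN : Pool.Agent.H59.LIN.T_BIN := by
  intro c k
  have hstep : ∀ c : ℤ, ((2 : ℤ) ^ (k + 1) ∣
      ∑ j ∈ range (k + 1), 2 ^ j * Ring.multichoose c j - (c.negOnePow : ℤ)) ↔
      ((2 : ℤ) ^ (k + 1) ∣ ∑ j ∈ range (k + 1), 2 ^ j * Ring.multichoose (c + 1) j -
        ((c + 1).negOnePow : ℤ)) := by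
    intro c
    have h1 := bin_rec c k
    have h2 : ((c + 1).negOnePow : ℤ) = - (c.negOnePow : ℤ) := by
      rw [Int.negOnePow_succ]; simp
    have h3 : (∑ j ∈ range (k + 1), (2 : ℤ) ^ j * Ring.multichoose (c + 1) j -
        ((c + 1).negOnePow : ℤ)) = 2 ^ (k + 1) * Ring.multichoose (c + 1) k -
        (∑ j ∈ range (k + 1), (2 : ℤ) ^ j * Ring.multichoose c j - (c.negOnePow : ℤ)) := by
      rw [h2]; linarith
    rw [h3]
    constructor
    · intro h
      exact dvd_sub (dvd_mul_right _ _) h
    · intro h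
      have := dvd_sub (dvd_mul_right ((2 : ℤ) ^ (k + 1)) (Ring.multichoose (c + 1) k)) h
      rwa [sub_sub_cancel] at this
  induction c using Int.induction_on with
  | zero =>
    have h : ∑ j ∈ range (k + 1), (2 : ℤ) ^ j * Ring.multichoose (0 : ℤ) j = 1 := by
      rw [Finset.sum_range_succ']
      simp
    rw [h]
    simp
  | succ i ih => exact (hstep _).mp ih
  | pred i ih =>
    rw [hstep]
    rw [sub_add_cancel]
    exact ih

end Pool.Agent.H94.LIN
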