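import Pool.Agent.H59.LIN.Targets

/-!
# `MP_559314_gt`: row INT
-/

set_option autoImplicit false

open Finset Polynomial

namespace Pool.Agent.H94.LIN

open Pool.Agent.H59.LIN

theorem r2_even (b : ℕ) : r2 ^ (2 * b) = (((2 : ℤ) ^ b : ℤ) : Zsqrtd 2) := by
  rw [pow_mul]
  have h : r2 ^ 2 = ((2 : ℤ) : Zsqrtd 2) := by
    rw [sq]
    rw [Zsqrtd.ext_iff]
    simp [r2]
  rw [h]
  push_cast
  rfl

/-- real parts of the powers -/
theorem re_pow (a : ℕ) : (r2 ^ a).re = if a % 2 = 0 then 2 ^ (a / 2) else 0 := by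
  split_ifs with h
  · obtain ⟨b, rfl⟩ : ∃ b, a = 2 * b := ⟨a / 2, by omega⟩
    have : 2 * b / 2 = b := by omega
    rw [r2_even, this, Zsqrtd.re_intCast]
  · obtain ⟨b, rfl⟩ : ∃ b, a = 2 * b + 1 := ⟨a / 2, by omega⟩
    rw [pow_succ, r2_even, Zsqrtd.re_mul, Zsqrtd.re_intCast, Zsqrtd.im_intCast]
    simp [r2]

/-- the part of degree less than `2 k + 2` -/
noncomputable def lowp (k m : ℕ) (p : ℤ[X]) : ℤ :=
  ∑ j ∈ range (k + 1), if m ≤ 2 * j then 2 ^ j * p.coeff (2 * j - m) else 0

theorem dvd_poly (k m : ℕ) (p : ℤ[X]) : (2 : ℤ) ^ (k + 1) ∣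
    (p.eval₂ (Int.castRingHom (Zsqrtd 2)) r2 * r2 ^ m).re - lowp k m p := by
  induction p using Polynomial.induction_on' with
  | add p q hp hq =>
    have h1 : lowp k m (p + q) = lowp k m p + lowp k m q := by
      unfold lowp
      rw [← Finset.sum_add_distrib]
      refine Finset.sum_congr rfl fun j _ => ?_
      split_ifs
      · rw [coeff_add]; ring
      · ring
    have h2 : ((p + q).eval₂ (Int.castRingHom (Zsqrtd 2)) r2 * r2 ^ m).re =
        (p.eval₂ (Int.castRingHom (Zsqrtd 2)) r2 * r2 ^ m).re +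
        (q.eval₂ (Int.castRingHom (Zsqrtd 2)) r2 * r2 ^ m).re := by
      rw [eval₂_add, add_mul, Zsqrtd.re_add]
    rw [h1, h2]
    have := dvd_add hp hq
    have h3 : ∀ a b c d : ℤ, a + b - (c + d) = a - c + (b - d) := by intros; ring
    rwa [h3]
  | monomial i a =>
    have h1 : ((monomial i a).eval₂ (Int.castRingHom (Zsqrtd 2)) r2 * r2 ^ m).re =
        a * (r2 ^ (i + m)).re := by
      rw [eval₂_monomial, mul_assoc, ← pow_add]
      simp
    have h2 : lowp k m (monomial i a) =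
        if (i + m) % 2 = 0 ∧ (i + m) / 2 ≤ k then 2 ^ ((i + m) / 2) * a else 0 := by
      unfold lowp
      split_ifs with h
      · rw [Finset.sum_eq_single ((i + m) / 2)]
        · rw [if_pos (by omega), coeff_monomial, if_pos (by omega)]
        · intro j _ hj
          split_ifs with h5
          · rw [coeff_monomial, if_neg (by omega), mul_zero]
          · rfl
        · intro h5
          exact absurd (Finset.mem_range.mpr (by omega)) h5
      · refine Finset.sum_eq_zero fun j hj => ?_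
        have hj' := Finset.mem_range.mp hj
        split_ifs with h5
        · rw [coeff_monomial, if_neg (by omega), mul_zero]
        · rfl
    rw [h1, h2, re_pow]
    by_cases h3 : (i + m) % 2 = 0
    · rw [if_pos h3]
      by_cases h4 : (i + m) / 2 ≤ k
      · rw [if_pos ⟨h3, h4⟩, mul_comm, sub_self]
        exact dvd_zero _
      · rw [if_neg (fun h => h4 h.2), sub_zero]
        exact Dvd.dvd.mul_left (pow_dvd_pow _ (by omega)) _
    · rw [if_neg h3, if_neg (fun h => h3 h.1)]
      simp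

theorem re_sum {ι : Type} (s : Finset ι) (f : ι → Zsqrtd 2) :
    (∑ i ∈ s, f i).re = ∑ i ∈ s, (f i).re := by
  classical
  induction s using Finset.induction_on with
  | empty => simp
  | insert a s ha ih => rw [Finset.sum_insert ha, Finset.sum_insert ha, Zsqrtd.re_add, ih]

theorem dvd_sign (hEXI : T_EXI) (hISQ : T_ISQ) (hCMP : T_CMP) (T : (n : ℕ) → Wd n → KK)
    (hT : Skn sK dK T) (n : ℕ) (w : Wd n) (hw : Knot w) :
    ∃ ε : ℤ, (ε = 1 ∨ ε = -1) ∧ ∀ k, (2 : ℤ) ^ (k + 1) ∣
      ∑ j ∈ range (k + 1), 2 ^ j * ec T j n w - ε := by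
  have hr : r2 * r2 = ((2 : ℤ) : Zsqrtd 2) := by
    have := r2_even 1
    rw [← sq]
    simpa using this
  obtain ⟨T2, hT2⟩ := hEXI (Zsqrtd 2) r2 r2 (-1) (by
    rw [hr]; push_cast; ring)
  have h1 := hISQ T2 hT2 n w hw
  refine ⟨(T2 n w).re, ?_, ?_⟩
  · rcases h1 with h | h
    · left; rw [h]; simp
    · right; rw [h]; simp
  · intro k
    obtain ⟨z, hz⟩ := hCMP T T2 hT hT2 n w (2 * k + 2)
    have h2 : (T2 n w).re = ∑ m ∈ range (2 * k + 2), ((PowerSeries.coeff m (T n w)).eval₂
        (Int.castRingHom _) r2 * r2 ^ m).re + 2 ^ (k + 1) * z.re := by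
      rw [hz, Zsqrtd.re_add, re_sum]
      congr 1
      have h3 : 2 * k + 2 = 2 * (k + 1) := by ring
      rw [h3, r2_even, Zsqrtd.re_mul, Zsqrtd.re_intCast, Zsqrtd.im_intCast]
      ring
    have h3 : ∑ j ∈ range (k + 1), (2 : ℤ) ^ j * ec T j n w =
        ∑ m ∈ range (2 * k + 2), lowp k m (PowerSeries.coeff m (T n w)) := by
      unfold lowp
      rw [Finset.sum_comm]
      refine Finset.sum_congr rfl fun j hj => ?_
      have hj' := Finset.mem_range.mp hj
      unfold ec
      rw [Finset.mul_sum, ← Finset.sum_filter]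
      refine Finset.sum_subset_zero_on_sdiff ?_ ?_ ?_ |>.trans rfl
      · intro m hm
        have hm' := Finset.mem_range.mp hm
        exact Finset.mem_filter.mpr ⟨Finset.mem_range.mpr (by omega), by omega⟩
      · intro m hm
        rw [Finset.mem_sdiff, Finset.mem_filter, Finset.mem_range, Finset.mem_range] at hm
        omega
      · intro m _
        rfl
    rw [h2, h3]
    have h4 : (2 : ℤ) ^ (k + 1) ∣ ∑ m ∈ range (2 * k + 2),
        (((PowerSeries.coeff m (T n w)).eval₂ (Int.castRingHom _) r2 * r2 ^ m).re -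
          lowp k m (PowerSeries.coeff m (T n w))) :=
      Finset.dvd_sum fun m _ => dvd_poly k m _
    rw [Finset.sum_sub_distrib] at h4
    have h5 : ∀ a b c : ℤ, b - (a + c) = -(a - b) - c := by intros; ring
    rw [h5]
    exact dvd_sub ((dvd_neg).mpr h4) (dvd_mul_right _ _)

/-- INT -/
theorem pf_INT (hEXI : Pool.Agent.H59.LIN.T_EXI) (hNCL : Pool.Agent.H59.LIN.T_NCL)
    (hS0 : Pool.Agent.H59.LIN.T_S0) (hISQ : Pool.Agent.H59.LIN.T_ISQ)
    (hCMP : Pool.Agent.H59.LIN.T_CMP) (hBIN : Pool.Agent.H59.LIN.T_BIN) :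
    Pool.Agent.H59.LIN.T_INT := by
  intro T hT n w hw k
  obtain ⟨ε, hε, hk⟩ := dvd_sign hEXI hISQ hCMP T hT n w hw
  have h0 : ec T 0 n w = 1 := by
    unfold ec pc
    have h1 := hS0 T hT n w
    rw [hNCL.2.2.2.2 Bool n w hw] at h1
    simp only [mul_zero, zero_add, Finset.sum_range_one]
    rw [PowerSeries.coeff_zero_eq_constantCoeff_apply, h1]
    simp
  have hε2 : ε = ((ec T 1 n w).negOnePow : ℤ) := by
    have h1 := hk 1
    rw [Finset.sum_range_succ, Finset.sum_range_one, h0] at h1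
    norm_num at h1
    rcases Int.even_or_odd (ec T 1 n w) with h2 | h2
    · rw [Int.negOnePow_even _ h2]
      obtain ⟨r, hr⟩ := h2
      rcases hε with h3 | h3
      · rw [h3]; simp
      · exfalso
        rw [h3, hr] at h1
        omega
    · rw [Int.negOnePow_odd _ h2]
      obtain ⟨r, hr⟩ := h2
      rcases hε with h3 | h3
      · exfalso
        rw [h3, hr] at h1
        omega
      · rw [h3]; simp
  have h1 := hk k
  have h2 := hBIN (ec T 1 n w) k
  rw [hε2] at h1
  have h3 := dvd_sub h1 h2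
  have h4 : ∑ j ∈ range (k + 1), (2 : ℤ) ^ j * (ec T j n w - Ring.multichoose (ec T 1 n w) j) =
      ∑ j ∈ range (k + 1), 2 ^ j * ec T j n w - ((ec T 1 n w).negOnePow : ℤ) -
      (∑ j ∈ range (k + 1), 2 ^ j * Ring.multichoose (ec T 1 n w) j -
        ((ec T 1 n w).negOnePow : ℤ)) := by
    rw [sub_sub_sub_cancel_right, ← Finset.sum_sub_distrib]
    refine Finset.sum_congr rfl fun j _ => ?_
    ring
  rw [h4]
  exact h3

end Pool.Agent.H94.LIN
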